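import Pool.Agent.Helper57.SL.Stmts
import Pool.Agent.Helper13.SI.TSQ

/-! # SL: the row TSS (after the row TSQ of helper13) -/

set_option autoImplicit false

namespace Pool.Agent.Helper39.SL

open MeasureTheory Set Filter Topology Pool.Agent.Helper57.SL

theorem tss_term {σ : ℝ} (n x : ℕ) (hx : 1 ≤ x) (hn : x ≤ n) :
    ((1 + Real.log (n : ℝ)) ^ 2 * (n : ℝ) ^ (-σ)) ^ 2 ≤
      17 ^ 4 * (1 + Real.log x) ^ 4 * (x : ℝ) ^ (-(1 / 4) : ℝ) *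
        (n : ℝ) ^ (-(2 * σ - 1 / 4)) := by
  have hx1 : (1 : ℝ) ≤ x := by exact_mod_cast hx
  have hx0 : (0 : ℝ) < x := by linarith
  have hxn : (x : ℝ) ≤ n := by exact_mod_cast hn
  have hn0 : (0 : ℝ) < n := by linarith
  have hr1 : 1 ≤ (n : ℝ) / x := by rwa [le_div_iff₀ hx0, one_mul]
  have hr0 : 0 < (n : ℝ) / x := by linarith
  have hlx : 0 ≤ Real.log x := Real.log_nonneg hx1
  have hlr : 0 ≤ Real.log ((n : ℝ) / x) := Real.log_nonneg hr1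
  have hl : Real.log n = Real.log x + Real.log ((n : ℝ) / x) := by
    rw [Real.log_div hn0.ne' hx0.ne']
    ring
  have h1 : 1 + Real.log ((n : ℝ) / x) ≤ 17 * ((n : ℝ) / x) ^ (1 / 16 : ℝ) := by
    have h2 := Real.log_le_rpow_div hr0.le (by norm_num : (0 : ℝ) < 1 / 16)
    have h3 : (1 : ℝ) ≤ ((n : ℝ) / x) ^ (1 / 16 : ℝ) := Real.one_le_rpow hr1 (by norm_num)
    have h4 : ((n : ℝ) / x) ^ (1 / 16 : ℝ) / (1 / 16) = 16 * ((n : ℝ) / x) ^ (1 / 16 : ℝ) := by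
      ring
    rw [h4] at h2
    linarith
  have h5 : 1 + Real.log n ≤ (1 + Real.log x) * (17 * ((n : ℝ) / x) ^ (1 / 16 : ℝ)) := by
    refine le_trans ?_ (mul_le_mul_of_nonneg_left h1 (by linarith))
    rw [hl]
    nlinarith [mul_nonneg hlx hlr]
  have h0 : 0 ≤ 1 + Real.log n := by
    have := Real.log_nonneg (hx1.trans hxn)
    linarith
  have h6 : (1 + Real.log n) ^ 4 ≤ ((1 + Real.log x) * (17 * ((n : ℝ) / x) ^ (1 / 16 : ℝ))) ^ 4 :=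
    pow_le_pow_left₀ h0 h5 4
  have h7 : (((n : ℝ) / x) ^ (1 / 16 : ℝ)) ^ 4 = (n : ℝ) ^ (1 / 4 : ℝ) * (x : ℝ) ^ (-(1 / 4) : ℝ) := by
    rw [← Real.rpow_natCast, ← Real.rpow_mul hr0.le, Real.rpow_neg hx0.le,
      ← div_eq_mul_inv, ← Real.div_rpow hn0.le hx0.le]
    norm_num
  have h8 : ((n : ℝ) ^ (-σ)) ^ 2 = (n : ℝ) ^ (-(2 * σ)) := by
    rw [← Real.rpow_natCast, ← Real.rpow_mul hn0.le]
    congr 1
    push_cast
    ring
  have h9 : (n : ℝ) ^ (1 / 4 : ℝ) * (n : ℝ) ^ (-(2 * σ)) = (n : ℝ) ^ (-(2 * σ - 1 / 4)) := by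
    rw [← Real.rpow_add hn0]
    congr 1
    ring
  calc ((1 + Real.log (n : ℝ)) ^ 2 * (n : ℝ) ^ (-σ)) ^ 2 =
        (1 + Real.log (n : ℝ)) ^ 4 * ((n : ℝ) ^ (-σ)) ^ 2 := by ring
    _ ≤ ((1 + Real.log x) * (17 * ((n : ℝ) / x) ^ (1 / 16 : ℝ))) ^ 4 * ((n : ℝ) ^ (-σ)) ^ 2 :=
        mul_le_mul_of_nonneg_right h6 (by positivity)
    _ = 17 ^ 4 * (1 + Real.log x) ^ 4 * (((n : ℝ) / x) ^ (1 / 16 : ℝ)) ^ 4 *
        ((n : ℝ) ^ (-σ)) ^ 2 := by ring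
    _ = 17 ^ 4 * (1 + Real.log x) ^ 4 * (x : ℝ) ^ (-(1 / 4) : ℝ) *
        ((n : ℝ) ^ (1 / 4 : ℝ) * (n : ℝ) ^ (-(2 * σ))) := by rw [h7, h8]; ring
    _ = _ := by rw [h9]

theorem st_TSS : ST_TSS := by
  refine ⟨17 ^ 4 * 4, by norm_num, fun y x hx σ hσ => ?_⟩
  have hx1 : (1 : ℝ) ≤ x := by
    have : 1 ≤ x := by omega
    exact_mod_cast this
  have hx0 : (0 : ℝ) < x := by linarith
  have hlx : 0 ≤ Real.log x := Real.log_nonneg hx1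
  have hs : 1 / 4 ≤ 2 * σ - 1 / 4 - 1 := by linarith [hσ.1]
  have hR : 0 ≤ 17 ^ 4 * 4 * (1 + Real.log x) ^ 4 * (x : ℝ) ^ (1 - 2 * σ) := by positivity
  have hmem : ∀ p ∈ Pool.Agent.Helper57.SJ.PP x y, x < p ∧ p ≤ y := by
    intro p hp
    unfold Pool.Agent.Helper57.SJ.PP at hp
    simp at hp
    omega
  by_cases hxy : x ≤ y
  · have h2 : ∑ p ∈ Pool.Agent.Helper57.SJ.PP x y,
        ((1 + Real.log (p : ℝ)) ^ 2 * (p : ℝ) ^ (-σ)) ^ 2 ≤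
        ∑ n ∈ Finset.Ico (x + 1) (y + 1), ((1 + Real.log (n : ℝ)) ^ 2 * (n : ℝ) ^ (-σ)) ^ 2 := by
      refine Finset.sum_le_sum_of_subset_of_nonneg ?_ fun i _ _ => by positivity
      intro n hn
      have := hmem n hn
      exact Finset.mem_Ico.2 ⟨by omega, by omega⟩
    have h3 : ∑ n ∈ Finset.Ico (x + 1) (y + 1),
        ((1 + Real.log (n : ℝ)) ^ 2 * (n : ℝ) ^ (-σ)) ^ 2 ≤
        ∑ n ∈ Finset.Ico (x + 1) (y + 1), 17 ^ 4 * (1 + Real.log x) ^ 4 *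
          (x : ℝ) ^ (-(1 / 4) : ℝ) * (n : ℝ) ^ (-(2 * σ - 1 / 4)) := by
      refine Finset.sum_le_sum fun n hn => tss_term n x (by omega) ?_
      have := (Finset.mem_Ico.1 hn).1
      omega
    have h4 := Pool.Agent.Helper13.SI.tsq_sum_le (s := 2 * σ - 1 / 4) (by linarith) x y
      (by omega) hxy
    rw [← Finset.mul_sum] at h3
    refine h2.trans (h3.trans ?_)
    have hK : 0 ≤ 17 ^ 4 * (1 + Real.log x) ^ 4 * (x : ℝ) ^ (-(1 / 4) : ℝ) := by positivity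
    refine (mul_le_mul_of_nonneg_left h4 hK).trans ?_
    have h5 : (x : ℝ) ^ (-(2 * σ - 1 / 4 - 1)) / (2 * σ - 1 / 4 - 1) ≤
        (x : ℝ) ^ (-(2 * σ - 1 / 4 - 1)) * 4 := by
      rw [div_le_iff₀ (by linarith)]
      have : 0 ≤ (x : ℝ) ^ (-(2 * σ - 1 / 4 - 1)) := by positivity
      nlinarith
    refine (mul_le_mul_of_nonneg_left h5 hK).trans (le_of_eq ?_)
    have h6 : (x : ℝ) ^ (-(1 / 4) : ℝ) * (x : ℝ) ^ (-(2 * σ - 1 / 4 - 1)) =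
        (x : ℝ) ^ (1 - 2 * σ) := by
      rw [← Real.rpow_add hx0]
      congr 1
      ring
    rw [← h6]
    ring
  · refine le_trans (le_of_eq ?_) hR
    refine Finset.sum_eq_zero fun p hp => ?_
    have := hmem p hp
    omega

end Pool.Agent.Helper39.SL
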